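import Mathlib
import Pool.Agent.Lib.helper20.PartSums

open Pool.Agent.Lib.helper20.PartSums

namespace Pool.Agent.Results.MP_62fa17_nt.SumA

theorem result : ∀ n : ℕ, 1 < n → A n = 2 ^ n := fun n _ => resA n

end Pool.Agent.Results.MP_62fa17_nt.SumA
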