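import Mathlib
import Pool.Agent.Lib.helper20.PartSums

open Pool.Agent.Lib.helper20.PartSums

namespace Pool.Agent.Results.MP_62fa17_nt.SumB

theorem result : ∀ n : ℕ, 1 < n → B n = 0 := resB

end Pool.Agent.Results.MP_62fa17_nt.SumB
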